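import Mathlib

/-!
# Homeomorphisms conjugate to their inverse have stable flow length zero

If `h f h⁻¹ = f⁻¹` then `f ^ (2 n) = (f ^ n h⁻¹ f ^ (-n)) h` is the product of a conjugate of `h⁻¹`
and of `h`. Conjugates and inverses of time-one maps of flows are time-one maps of flows, so
`f ^ (2 n)` is a product of `2 k` time-one maps of flows as soon as `h` is a product of `k` of them.
-/

set_option autoImplicit false

open Filter Topology

noncomputable section

namespace Pool.Agent.Results.MP_e54d61_gt.ConjugateToInverse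

variable (X : Type*) [TopologicalSpace X]

/-- `Homeo₀(X)`: the group of all homeomorphisms of `X` which are isotopic to the identity, that is,
the path component of the identity of the homeomorphism group of `X`. For a closed surface it is the
identity component. -/
def Homeo0 : Subgroup (X ≃ₜ X) where
  carrier := {h | ∃ H : unitInterval → (X ≃ₜ X), H 0 = 1 ∧ H 1 = h ∧
    Continuous (fun p : unitInterval × X => H p.1 p.2) ∧
    Continuous (fun p : unitInterval × X => (H p.1).symm p.2)}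
  one_mem' := ⟨fun _ => 1, rfl, rfl, continuous_snd, continuous_snd⟩
  mul_mem' := by
    rintro f g ⟨F, hF0, hF1, hFc, hFi⟩ ⟨G, hG0, hG1, hGc, hGi⟩
    refine ⟨fun t => F t * G t, by show F 0 * G 0 = 1; rw [hF0, hG0, one_mul],
      by show F 1 * G 1 = f * g; rw [hF1, hG1], ?_, ?_⟩
    · exact hFc.comp (continuous_fst.prodMk hGc)
    · exact hGi.comp (continuous_fst.prodMk hFi)
  inv_mem' := by
    rintro f ⟨F, hF0, hF1, hFc, hFi⟩
    exact ⟨fun t => (F t)⁻¹, by show (F 0)⁻¹ = 1; rw [hF0, inv_one],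
      by show (F 1)⁻¹ = f⁻¹; rw [hF1], hFi, hFc⟩

variable {X}

/-- A flow on `X`: a continuous one-parameter group of homeomorphisms. -/
def IsFlow (φ : ℝ → (X ≃ₜ X)) : Prop :=
  (∀ s t, φ (s + t) = φ s * φ t) ∧ Continuous (fun p : ℝ × X => φ p.1 p.2)

lemma IsFlow.zero {φ : ℝ → (X ≃ₜ X)} (h : IsFlow φ) : φ 0 = 1 := by
  have h1 := h.1 0 0
  rw [add_zero] at h1
  exact (mul_eq_left.1 h1.symm)

lemma IsFlow.neg {φ : ℝ → (X ≃ₜ X)} (h : IsFlow φ) (t : ℝ) : φ (-t) = (φ t)⁻¹ := by
  have h1 := h.1 (-t) t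
  rw [neg_add_cancel, h.zero] at h1
  exact eq_inv_of_mul_eq_one_left h1.symm

variable (X) in
/-- The set of all time-one maps of flows, as a subset of `Homeo₀(X)`. -/
def flowMaps : Set (Homeo0 X) := {f | ∃ φ : ℝ → (X ≃ₜ X), IsFlow φ ∧ (f : X ≃ₜ X) = φ 1}

/-- The word length of `h` with respect to `S`: the least length of a list of elements of `S` with
product `h` (infinite if there is none). -/
def wordLength {G : Type*} [Group G] (S : Set G) (h : G) : ℕ∞ :=
  ⨅ (l : List G) (_ : (∀ x ∈ l, x ∈ S) ∧ l.prod = h), (l.length : ℕ∞)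

/-- The flow length of `h`. -/
def flowLength (h : Homeo0 X) : ℕ∞ := wordLength (flowMaps X) h

section general

variable {G : Type*} [Group G] {S : Set G}

lemma wordLength_le {l : List G} {h : G} (hl : ∀ x ∈ l, x ∈ S) (hp : l.prod = h) :
    wordLength S h ≤ l.length :=
  iInf₂_le l ⟨hl, hp⟩

lemma exists_list {h : G} (hh : wordLength S h ≠ ⊤) :
    ∃ l : List G, (∀ x ∈ l, x ∈ S) ∧ l.prod = h ∧ (l.length : ℕ∞) = wordLength S h := by
  have hne : Nonempty {l : List G // (∀ x ∈ l, x ∈ S) ∧ l.prod = h} := by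
    by_contra hc
    apply hh
    unfold wordLength
    rw [iInf₂_eq_top]
    intro l hl
    exact absurd ⟨⟨l, hl⟩⟩ hc
  have h1 : wordLength S h = ⨅ l : {l : List G // (∀ x ∈ l, x ∈ S) ∧ l.prod = h},
      ((l : List G).length : ℕ∞) := by
    unfold wordLength
    rw [iInf_subtype']
  obtain ⟨l, hl⟩ := ENat.exists_eq_iInf (fun l : {l : List G // (∀ x ∈ l, x ∈ S) ∧ l.prod = h} =>
    ((l : List G).length : ℕ∞))
  exact ⟨l, l.2.1, l.2.2, hl.trans h1.symm⟩

lemma wordLength_mul (g h : G) : wordLength S (g * h) ≤ wordLength S g + wordLength S h := by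
  rcases eq_or_ne (wordLength S g) ⊤ with hg | hg
  · rw [hg, top_add]; exact le_top
  rcases eq_or_ne (wordLength S h) ⊤ with hh | hh
  · rw [hh, add_top]; exact le_top
  obtain ⟨l, hl, hlp, hll⟩ := exists_list hg
  obtain ⟨k, hk, hkp, hkl⟩ := exists_list hh
  rw [← hll, ← hkl]
  have h1 := wordLength_le (S := S) (l := l ++ k) (h := g * h) (by
    intro x hx
    rcases List.mem_append.1 hx with h | h
    · exact hl x h
    · exact hk x h) (by rw [List.prod_append, hlp, hkp])
  rw [List.length_append] at h1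
  exact_mod_cast h1

lemma wordLength_inv (hS : ∀ x ∈ S, x⁻¹ ∈ S) (h : G) : wordLength S h⁻¹ ≤ wordLength S h := by
  rcases eq_or_ne (wordLength S h) ⊤ with hh | hh
  · rw [hh]; exact le_top
  obtain ⟨l, hl, hlp, hll⟩ := exists_list hh
  rw [← hll]
  have h1 := wordLength_le (S := S) (l := (l.map (·⁻¹)).reverse) (h := h⁻¹) (by
    intro x hx
    rw [List.mem_reverse, List.mem_map] at hx
    obtain ⟨y, hy, rfl⟩ := hx
    exact hS y (hl y hy)) (by rw [← List.prod_inv_reverse, hlp])
  simpa using h1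

lemma wordLength_conj (hS : ∀ x ∈ S, ∀ g, g * x * g⁻¹ ∈ S) (g h : G) :
    wordLength S (g * h * g⁻¹) ≤ wordLength S h := by
  rcases eq_or_ne (wordLength S h) ⊤ with hh | hh
  · rw [hh]; exact le_top
  obtain ⟨l, hl, hlp, hll⟩ := exists_list hh
  rw [← hll]
  have h1 := wordLength_le (S := S) (l := l.map (MulAut.conj g)) (h := g * h * g⁻¹) (by
    intro x hx
    rw [List.mem_map] at hx
    obtain ⟨y, hy, rfl⟩ := hx
    exact hS y (hl y hy) g) (by rw [← map_list_prod, hlp, MulAut.conj_apply])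
  simpa using h1

/-- the algebraic identity -/
lemma key {f h : G} (hc : h * f * h⁻¹ = f⁻¹) (n : ℕ) :
    f ^ (2 * n) = (f ^ n * h⁻¹ * (f ^ n)⁻¹) * h := by
  have h1 : h * f ^ n * h⁻¹ = (f ^ n)⁻¹ := by
    rw [← conj_pow, hc, inv_pow]
  have h2 : (f ^ n)⁻¹ * h = h * f ^ n := by
    rw [← h1]; group
  rw [mul_assoc, h2, two_mul, pow_add]
  group

end general

lemma inv_mem (x : Homeo0 X) (hx : x ∈ flowMaps X) : x⁻¹ ∈ flowMaps X := by
  obtain ⟨φ, hφ, hx⟩ := hx
  refine ⟨fun t => φ (-t), ⟨fun s t => ?_, ?_⟩, ?_⟩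
  · show φ (-(s + t)) = _
    rw [neg_add, hφ.1]
  · exact hφ.2.comp ((continuous_neg.comp continuous_fst).prodMk continuous_snd)
  · show ((x : X ≃ₜ X))⁻¹ = φ (-1)
    rw [hφ.neg, hx]

lemma conj_mem (x : Homeo0 X) (hx : x ∈ flowMaps X) (g : Homeo0 X) :
    g * x * g⁻¹ ∈ flowMaps X := by
  obtain ⟨φ, hφ, hx⟩ := hx
  refine ⟨fun t => (g : X ≃ₜ X) * φ t * (g : X ≃ₜ X)⁻¹, ⟨fun s t => ?_, ?_⟩, ?_⟩
  · show (g : X ≃ₜ X) * φ (s + t) * (g : X ≃ₜ X)⁻¹ = _
    rw [hφ.1]
    group
  · exact (g : X ≃ₜ X).continuous.comp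
      (hφ.2.comp (continuous_fst.prodMk ((g : X ≃ₜ X).symm.continuous.comp continuous_snd)))
  · show (g : X ≃ₜ X) * (x : X ≃ₜ X) * (g : X ≃ₜ X)⁻¹ = (g : X ≃ₜ X) * φ 1 * (g : X ≃ₜ X)⁻¹
    rw [hx]

/-- Let `X` be a topological space and let `f, h` be elements of `Homeo₀(X)` with
`h f h⁻¹ = f⁻¹`. Then the flow length of `f ^ (2 n)` is at most twice the flow length of `h`, for
every `n`. Consequently, if `f` and `h` are products of time-one maps of flows, the stable flow
length of `f` is zero. -/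
theorem result (X : Type*) [TopologicalSpace X] (f h : Homeo0 X) (hc : h * f * h⁻¹ = f⁻¹) :
    (∀ n : ℕ, flowLength (f ^ (2 * n)) ≤ 2 * flowLength h) ∧
    (f ∈ Subgroup.closure (flowMaps X) → h ∈ Subgroup.closure (flowMaps X) →
      Tendsto (fun n : ℕ => ((flowLength (f ^ n)).toNat : ℝ) / n) atTop (𝓝 0)) := by
  have hmain : ∀ n : ℕ, flowLength (f ^ (2 * n)) ≤ 2 * flowLength h := by
    intro n
    rw [key hc n, two_mul]
    refine (wordLength_mul _ _).trans (add_le_add ?_ le_rfl)
    exact (wordLength_conj conj_mem _ _).trans (wordLength_inv inv_mem _)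
  refine ⟨hmain, fun hf hh => ?_⟩
  have hfin : ∀ g ∈ Subgroup.closure (flowMaps X), flowLength g ≠ ⊤ := by
    intro g hg
    induction hg using Subgroup.closure_induction with
    | mem x hx =>
      have := wordLength_le (S := flowMaps X) (l := [x]) (h := x) (by simpa using hx) (by simp)
      exact ne_top_of_le_ne_top (ENat.natCast_ne_top _) this
    | one =>
      have := wordLength_le (S := flowMaps X) (l := []) (h := 1) (by simp) (by simp)
      exact ne_top_of_le_ne_top (ENat.natCast_ne_top _) this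
    | mul x y _ _ hx hy =>
      exact ne_top_of_le_ne_top (WithTop.add_ne_top.2 ⟨hx, hy⟩) (wordLength_mul x y)
    | inv x _ hx => exact ne_top_of_le_ne_top hx (wordLength_inv inv_mem x)
  obtain ⟨a, ha⟩ := ENat.ne_top_iff_exists.1 (hfin f hf)
  obtain ⟨b, hb⟩ := ENat.ne_top_iff_exists.1 (hfin h hh)
  have hbound : ∀ n : ℕ, (flowLength (f ^ n)).toNat ≤ 2 * b + a := by
    intro n
    have h1 : flowLength (f ^ n) ≤ ((2 * b + a : ℕ) : ℕ∞) := by
      rcases Nat.even_or_odd' n with ⟨k, hk | hk⟩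
      · rw [hk]
        refine (hmain k).trans ?_
        rw [← hb]
        norm_cast
        omega
      · rw [hk, pow_succ]
        refine (wordLength_mul _ _).trans ?_
        refine (add_le_add (hmain k) le_rfl).trans ?_
        have : wordLength (flowMaps X) f = flowLength f := rfl
        rw [this, ← ha, ← hb]
        norm_cast
    exact ENat.toNat_le_of_le_natCast h1
  refine squeeze_zero (g := fun n : ℕ => ((2 * b + a : ℕ) : ℝ) / n) (fun n => by positivity) (fun n => ?_)
    (tendsto_const_div_atTop_nhds_zero_nat _)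
  exact div_le_div_of_nonneg_right (by exact_mod_cast hbound n) (Nat.cast_nonneg n)

end Pool.Agent.Results.MP_e54d61_gt.ConjugateToInverse
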